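import Mathlib
import Pool.Agent.Helper559.Mertens

set_option autoImplicit false

namespace Pool.Agent.X129.ME

open Finset ArithmeticFunction

/-- `z ^ Ω(n)` -/
noncomputable def F (z : ℝ) (n : ℕ) : ℝ := z ^ (cardFactors n)

/-- summatory function -/
noncomputable def A (z : ℝ) (N : ℕ) : ℝ := ∑ n ∈ Ioc 0 N, F z n

/-- logarithmic summatory function -/
noncomputable def H (z : ℝ) (N : ℕ) : ℝ := ∑ n ∈ Ioc 0 N, F z n / n

lemma F_nonneg {z : ℝ} (hz : 0 ≤ z) (n : ℕ) : 0 ≤ F z n := pow_nonneg hz _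

lemma F_le_one {z : ℝ} (hz : 0 ≤ z) (hz1 : z ≤ 1) (n : ℕ) : F z n ≤ 1 := pow_le_one₀ hz hz1

lemma F_mul {z : ℝ} {m n : ℕ} (hm : m ≠ 0) (hn : n ≠ 0) : F z (m * n) = F z m * F z n := by
  unfold F
  rw [cardFactors_mul hm hn, pow_add]

lemma F_one (z : ℝ) : F z 1 = 1 := by unfold F; simp

/-- as an arithmetic function -/
noncomputable def Fa (z : ℝ) : ArithmeticFunction ℝ := ⟨fun n => if n = 0 then 0 else F z n, by simp⟩

lemma Fa_apply {z : ℝ} {n : ℕ} (hn : n ≠ 0) : Fa z n = F z n := by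
  change (if n = 0 then 0 else F z n) = F z n
  rw [if_neg hn]

lemma conv_ge {z : ℝ} (hz : 0 ≤ z) (hz1 : z ≤ 1) {n : ℕ} (hn : 0 < n) :
    F z n * Real.log n ≤ (Fa z * vonMangoldt) n := by
  rw [← vonMangoldt_sum, mul_apply, Finset.mul_sum, ← Nat.sum_divisorsAntidiagonal' (f := fun _ d => F z n * vonMangoldt d)]
  apply Finset.sum_le_sum
  rintro ⟨a, b⟩ hab
  rw [Nat.mem_divisorsAntidiagonal] at hab
  obtain ⟨h1, h2⟩ := hab
  simp only at h1 ⊢
  have ha : a ≠ 0 := by rintro rfl; simp at h1; omega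
  have hb : b ≠ 0 := by rintro rfl; simp at h1; omega
  rw [Fa_apply ha, ← h1, F_mul ha hb]
  have h3 : F z a * F z b ≤ F z a := by
    have := F_le_one hz hz1 b
    have := F_nonneg hz a
    nlinarith
  exact mul_le_mul_of_nonneg_right h3 vonMangoldt_nonneg

lemma A_le_H {z : ℝ} (hz : 0 ≤ z) (hz1 : z ≤ 1) (N : ℕ) :
    A z N * Real.log N ≤ (Real.log 4 + 5) * N * H z N := by
  have h1 : ∑ n ∈ Ioc 0 N, F z n * Real.log n ≤ (Real.log 4 + 4) * N * H z N := by
    calc ∑ n ∈ Ioc 0 N, F z n * Real.log n ≤ ∑ n ∈ Ioc 0 N, (Fa z * vonMangoldt) n :=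
          Finset.sum_le_sum fun n hn => conv_ge hz hz1 (Finset.mem_Ioc.1 hn).1
      _ = ∑ n ∈ Ioc 0 N, Fa z n * ∑ m ∈ Ioc 0 (N / n), vonMangoldt m :=
          sum_Ioc_mul_eq_sum_sum _ _ _
      _ ≤ ∑ n ∈ Ioc 0 N, F z n * ((Real.log 4 + 4) * ((N : ℝ) / n)) := by
          apply Finset.sum_le_sum
          intro n hn
          have hn0 := (Finset.mem_Ioc.1 hn).1
          rw [Fa_apply hn0.ne']
          apply mul_le_mul_of_nonneg_left _ (F_nonneg hz n)
          have h2 := Chebyshev.psi_le_const_mul_self (x := ((N / n : ℕ) : ℝ)) (Nat.cast_nonneg _)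
          have h3 : Chebyshev.psi ((N / n : ℕ) : ℝ) = ∑ m ∈ Ioc 0 (N / n), vonMangoldt m := by
            unfold Chebyshev.psi
            rw [Nat.floor_natCast]
          rw [h3] at h2
          refine h2.trans ?_
          have h4 : ((N / n : ℕ) : ℝ) ≤ (N : ℝ) / n := Nat.cast_div_le
          have h5 : 0 ≤ Real.log 4 := Real.log_nonneg (by norm_num)
          exact mul_le_mul_of_nonneg_left h4 (by linarith)
      _ = (Real.log 4 + 4) * N * H z N := by
          unfold H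
          rw [Finset.mul_sum]
          apply Finset.sum_congr rfl
          intro n _
          ring
  have h2 : A z N * Real.log N ≤ ∑ n ∈ Ioc 0 N, F z n * Real.log n + N * H z N := by
    unfold A H
    rw [Finset.sum_mul, Finset.mul_sum, ← Finset.sum_add_distrib]
    apply Finset.sum_le_sum
    intro n hn
    obtain ⟨h3, h4⟩ := Finset.mem_Ioc.1 hn
    have h5 : (0 : ℝ) < n := by exact_mod_cast h3
    have h6 : (0 : ℝ) < N := by exact_mod_cast (lt_of_lt_of_le h3 h4)
    have h7 : Real.log N ≤ Real.log n + N / n := by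
      have h8 := Real.log_le_sub_one_of_pos (div_pos h6 h5)
      rw [Real.log_div h6.ne' h5.ne'] at h8
      linarith
    calc F z n * Real.log N ≤ F z n * (Real.log n + N / n) :=
          mul_le_mul_of_nonneg_left h7 (F_nonneg hz n)
      _ = _ := by ring
  calc A z N * Real.log N ≤ _ := h2
    _ ≤ (Real.log 4 + 4) * N * H z N + N * H z N := by linarith
    _ = _ := by ring

/-- monoid hom for the Euler product -/
noncomputable def Fh (z : ℝ) : ℕ →* ℝ where
  toFun n := if n = 0 then 0 else F z n / n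
  map_one' := by simp [F_one]
  map_mul' m n := by
    rcases eq_or_ne m 0 with rfl | hm
    · simp
    rcases eq_or_ne n 0 with rfl | hn
    · simp
    rw [if_neg hm, if_neg hn, if_neg (mul_ne_zero hm hn), F_mul hm hn, Nat.cast_mul, mul_div_mul_comm]

lemma Fh_prime (z : ℝ) {p : ℕ} (hp : p.Prime) : Fh z p = z / p := by
  change (if p = 0 then 0 else F z p / p) = z / p
  rw [if_neg hp.ne_zero]
  unfold F
  rw [cardFactors_apply_prime hp, pow_one]

lemma H_le_prod {z : ℝ} (hz : 0 ≤ z) (hz1 : z ≤ 1) (N : ℕ) :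
    H z N ≤ ∏ p ∈ (N + 1).primesBelow, (1 - z / p)⁻¹ := by
  have hlt : ∀ {p : ℕ}, p.Prime → ‖Fh z p‖ < 1 := by
    intro p hp
    rw [Fh_prime z hp]
    have h2 : (2 : ℝ) ≤ p := by exact_mod_cast hp.two_le
    rw [Real.norm_of_nonneg (by positivity), div_lt_one (by linarith)]
    linarith
  obtain ⟨hs, hh⟩ := EulerProduct.summable_and_hasSum_smoothNumbers_prod_primesBelow_geometric
    (f := Fh z) hlt (N + 1)
  have e1 : ∏ p ∈ (N + 1).primesBelow, (1 - Fh z p)⁻¹ = ∏ p ∈ (N + 1).primesBelow, (1 - z / p)⁻¹ := by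
    apply Finset.prod_congr rfl
    intro p hp
    rw [Fh_prime z (Nat.prime_of_mem_primesBelow hp)]
  rw [e1] at hh
  have hmem : ∀ n ∈ Ioc 0 N, n ∈ (N + 1).smoothNumbers := by
    intro n hn
    obtain ⟨h1, h2⟩ := Finset.mem_Ioc.1 hn
    exact Nat.mem_smoothNumbers_of_lt h1 (by omega)
  have h3 : ∑ n ∈ (Ioc 0 N).attach, Fh z (⟨n.1, hmem n.1 n.2⟩ : (N + 1).smoothNumbers) ≤
      ∏ p ∈ (N + 1).primesBelow, (1 - z / p)⁻¹ := by
    rw [← hh.tsum_eq]
    have h4 := hh.summable.sum_le_tsum ((Ioc 0 N).attach.map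
      ⟨fun n => (⟨n.1, hmem n.1 n.2⟩ : (N + 1).smoothNumbers), fun a b hab => by
        have := congrArg (fun x : (N + 1).smoothNumbers => (x : ℕ)) hab
        exact Subtype.ext this⟩) (fun i _ => by
          change 0 ≤ (if (i : ℕ) = 0 then (0 : ℝ) else F z i / (i : ℕ))
          split_ifs
          · exact le_rfl
          · exact div_nonneg (F_nonneg hz _) (Nat.cast_nonneg _))
    rw [Finset.sum_map] at h4
    exact h4
  refine le_trans (le_of_eq ?_) h3
  unfold H
  rw [← Finset.sum_attach]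
  apply Finset.sum_congr rfl
  intro n _
  have hn := (Finset.mem_Ioc.1 n.2).1
  change F z n / (n : ℕ) = (if (n : ℕ) = 0 then (0 : ℝ) else F z n / (n : ℕ))
  rw [if_neg hn.ne']

lemma sum_sq_le (N : ℕ) : ∑ p ∈ (N + 1).primesBelow, (1 / (p : ℝ)) ^ 2 ≤ 2 := by
  have h1 : ∀ M : ℕ, 1 ≤ M → ∑ n ∈ Ioc 0 M, (1 / (n : ℝ)) ^ 2 ≤ 2 - 1 / (M : ℝ) := by
    intro M hM
    induction M, hM using Nat.le_induction with
    | base => norm_num
    | succ M hM ih =>
      rw [Finset.sum_Ioc_succ_top (by omega)]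
      push_cast
      have h4 : (1 : ℝ) ≤ M := by exact_mod_cast hM
      have h5 : (1 / ((M : ℝ) + 1)) ^ 2 ≤ 1 / (M : ℝ) - 1 / ((M : ℝ) + 1) := by
        rw [div_pow, one_pow, div_sub_div _ _ (by positivity) (by positivity),
          div_le_div_iff₀ (by positivity) (by positivity)]
        nlinarith
      linarith
  rcases Nat.eq_zero_or_pos N with rfl | hN
  · have : (0 + 1).primesBelow = ∅ := by decide
    rw [this]
    simp
  have h2 : (N + 1).primesBelow ⊆ Ioc 0 N := by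
    intro p hp
    have h3 := Nat.mem_primesBelow.1 hp
    rw [Finset.mem_Ioc]
    exact ⟨h3.2.pos, by omega⟩
  calc ∑ p ∈ (N + 1).primesBelow, (1 / (p : ℝ)) ^ 2 ≤ ∑ n ∈ Ioc 0 N, (1 / (n : ℝ)) ^ 2 :=
        Finset.sum_le_sum_of_subset_of_nonneg h2 fun _ _ _ => by positivity
    _ ≤ 2 - 1 / (N : ℝ) := h1 N hN
    _ ≤ 2 := by
        have : (0 : ℝ) ≤ 1 / (N : ℝ) := by positivity
        linarith

lemma inv_le_exp {u : ℝ} (h0 : 0 ≤ u) (h1 : u ≤ 1 / 2) : (1 - u)⁻¹ ≤ Real.exp (u + u ^ 2) := by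
  have h2 : 0 < 1 - u := by linarith
  rw [inv_eq_one_div, div_le_iff₀ h2]
  have h3 : 1 + (u + u ^ 2) + (u + u ^ 2) ^ 2 / 2 ≤ Real.exp (u + u ^ 2) :=
    Real.quadratic_le_exp_of_nonneg (by positivity)
  have h4 : 1 ≤ (1 + (u + u ^ 2) + (u + u ^ 2) ^ 2 / 2) * (1 - u) := by
    nlinarith [mul_nonneg h0 h0, mul_nonneg (mul_nonneg h0 h0) h0, mul_nonneg (mul_nonneg h0 h0) (sub_nonneg.2 h1),
      mul_nonneg (mul_nonneg (mul_nonneg h0 h0) h0) (sub_nonneg.2 h1)]
  exact h4.trans (mul_le_mul_of_nonneg_right h3 h2.le)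

/-- logarithmic mean -/
lemma H_le : ∃ C : ℝ, 0 < C ∧ ∀ z : ℝ, 0 ≤ z → z ≤ 1 → ∀ N : ℕ, 2 ≤ N →
    H z N ≤ C * (Real.log N) ^ z := by
  obtain ⟨C, hC, hm⟩ := Pool.Agent.Helper559.mertens
  refine ⟨Real.exp (C + 2), Real.exp_pos _, fun z hz hz1 N hN => ?_⟩
  have hl : 0 < Real.log N := Real.log_pos (by exact_mod_cast hN)
  refine (H_le_prod hz hz1 N).trans ?_
  have h1 : ∏ p ∈ (N + 1).primesBelow, (1 - z / (p : ℝ))⁻¹ ≤
      ∏ p ∈ (N + 1).primesBelow, Real.exp (z / p + (z / p) ^ 2) := by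
    apply Finset.prod_le_prod
    · intro p hp
      have h2 : (2 : ℝ) ≤ p := by exact_mod_cast (Nat.prime_of_mem_primesBelow hp).two_le
      have h3 : z / p ≤ 1 := by
        rw [div_le_one (by linarith)]
        linarith
      exact inv_nonneg.2 (by linarith)
    · intro p hp
      have h2 : (2 : ℝ) ≤ p := by exact_mod_cast (Nat.prime_of_mem_primesBelow hp).two_le
      apply inv_le_exp (by positivity)
      rw [div_le_div_iff₀ (by linarith) (by norm_num)]
      linarith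
  refine h1.trans ?_
  rw [← Real.exp_sum, Finset.sum_add_distrib]
  have h4 : ∑ p ∈ (N + 1).primesBelow, z / (p : ℝ) = z * Pool.Agent.Helper559.S N := by
    unfold Pool.Agent.Helper559.S
    rw [Finset.mul_sum]
    have h5 : (N + 1).primesBelow = (Icc 1 N).filter Nat.Prime := by
      ext p
      rw [Nat.mem_primesBelow, Finset.mem_filter, Finset.mem_Icc]
      constructor
      · rintro ⟨h6, h7⟩
        exact ⟨⟨h7.one_lt.le, by omega⟩, h7⟩
      · rintro ⟨⟨_, h6⟩, h7⟩
        exact ⟨by omega, h7⟩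
    rw [h5]
    apply Finset.sum_congr rfl
    intro p _
    ring
  have h6 : ∑ p ∈ (N + 1).primesBelow, (z / (p : ℝ)) ^ 2 ≤ 2 := by
    refine le_trans (Finset.sum_le_sum fun p _ => ?_) (sum_sq_le N)
    apply pow_le_pow_left₀ (by positivity)
    exact div_le_div_of_nonneg_right hz1 (Nat.cast_nonneg _)
  have h7 := (abs_le.1 (hm N hN)).2
  have h8 : z * Pool.Agent.Helper559.S N ≤ z * Real.log (Real.log N) + C := by
    have : z * (Pool.Agent.Helper559.S N - Real.log (Real.log N)) ≤ C := by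
      by_cases hh : 0 ≤ Pool.Agent.Helper559.S N - Real.log (Real.log N)
      · nlinarith
      · nlinarith
    linarith
  rw [h4]
  calc Real.exp (z * Pool.Agent.Helper559.S N + ∑ p ∈ (N + 1).primesBelow, (z / (p : ℝ)) ^ 2) ≤
        Real.exp ((C + 2) + z * Real.log (Real.log N)) := Real.exp_le_exp.2 (by linarith)
    _ = _ := by
        rw [Real.exp_add, mul_comm z, Real.exp_mul, Real.exp_log hl]

/-- the mean value -/
lemma A_le : ∃ C : ℝ, 0 < C ∧ ∀ z : ℝ, 0 ≤ z → z ≤ 1 → ∀ N : ℕ, 1 ≤ N →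
    A z N ≤ C * N * (1 + Real.log N) ^ (z - 1) := by
  obtain ⟨C, hC, h⟩ := H_le
  have h4 : 0 ≤ Real.log 4 := Real.log_nonneg (by norm_num)
  have hl2 : 0.6931471803 < Real.log 2 := Real.log_two_gt_d9
  refine ⟨(Real.log 4 + 5) * C * 3 + 1, by positivity, fun z hz hz1 N hN => ?_⟩
  rcases Nat.lt_or_ge N 2 with hN2 | hN2
  · have : N = 1 := by omega
    subst this
    unfold A
    simp only [Finset.sum_Ioc_succ_top (show 0 ≤ 0 by omega), Finset.Ioc_self, Finset.sum_empty]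
    norm_num [F_one]
    positivity
  have hNr : (2 : ℝ) ≤ N := by exact_mod_cast hN2
  have hl : Real.log 2 ≤ Real.log N := Real.log_le_log (by norm_num) hNr
  have hl0 : 0 < Real.log N := by linarith
  have h1 := A_le_H hz hz1 N
  have h2 := h z hz hz1 N hN2
  have h3 : A z N * Real.log N ≤ (Real.log 4 + 5) * N * (C * (Real.log N) ^ z) :=
    h1.trans (mul_le_mul_of_nonneg_left h2 (by positivity))
  have h5 : (Real.log N) ^ z ≤ (1 + Real.log N) ^ z :=
    Real.rpow_le_rpow hl0.le (by linarith) hz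
  have h6 : (1 + Real.log N) ^ z = (1 + Real.log N) ^ (z - 1) * (1 + Real.log N) := by
    rw [← Real.rpow_add_one (by linarith), sub_add_cancel]
  have h7 : 1 + Real.log N ≤ 3 * Real.log N := by linarith
  have h8 : 0 < (1 + Real.log N) ^ (z - 1) := Real.rpow_pos_of_pos (by linarith) _
  have h9 : A z N * Real.log N ≤ ((Real.log 4 + 5) * C * 3 * N * (1 + Real.log N) ^ (z - 1)) * Real.log N := by
    calc A z N * Real.log N ≤ (Real.log 4 + 5) * N * (C * (Real.log N) ^ z) := h3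
      _ ≤ (Real.log 4 + 5) * N * (C * ((1 + Real.log N) ^ (z - 1) * (3 * Real.log N))) := by
          apply mul_le_mul_of_nonneg_left _ (by positivity)
          apply mul_le_mul_of_nonneg_left _ hC.le
          refine h5.trans ?_
          rw [h6]
          exact mul_le_mul_of_nonneg_left h7 h8.le
      _ = _ := by ring
  have h10 := le_of_mul_le_mul_right h9 hl0
  refine h10.trans ?_
  have h11 : 0 ≤ (N : ℝ) * (1 + Real.log N) ^ (z - 1) := by positivity
  nlinarith

end Pool.Agent.X129.ME
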