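import Mathlib
import Pool.Agent.X129.ME.Up

set_option autoImplicit false

namespace Pool.Agent.X129.ME

open Finset ArithmeticFunction

/-- the number of `(a, b, c, d)` with `a, c ∈ B`, `1 ≤ b, d ≤ N` and `a b = c d` -/
def energy (B : Finset ℕ) (N : ℕ) : ℕ :=
  (((B ×ˢ Ioc 0 N) ×ˢ (B ×ˢ Ioc 0 N)).filter (fun q => q.1.1 * q.1.2 = q.2.1 * q.2.2)).card

/-- the parametrisation -/
def par (q : (ℕ × ℕ) × (ℕ × ℕ)) : ℕ × ℕ × ℕ × ℕ :=
  (Nat.gcd q.1.1 q.2.1, q.1.1 / Nat.gcd q.1.1 q.2.1, q.2.1 / Nat.gcd q.1.1 q.2.1,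
    q.1.2 / (q.2.1 / Nat.gcd q.1.1 q.2.1))

lemma par_spec {a b c d : ℕ} (ha : 0 < a) (hb : 0 < b) (hc : 0 < c) (h : a * b = c * d) :
    ∃ g a' c' t : ℕ, 0 < g ∧ 0 < a' ∧ 0 < c' ∧ 0 < t ∧ par ((a, b), (c, d)) = (g, a', c', t) ∧
      a = g * a' ∧ c = g * c' ∧ b = c' * t ∧ d = a' * t := by
  obtain ⟨g, hg⟩ : ∃ g, g = Nat.gcd a c := ⟨_, rfl⟩
  have hg0 : 0 < g := hg ▸ Nat.gcd_pos_of_pos_left _ ha
  obtain ⟨a', ha'⟩ : g ∣ a := hg ▸ Nat.gcd_dvd_left a c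
  obtain ⟨c', hc'⟩ : g ∣ c := hg ▸ Nat.gcd_dvd_right a c
  have ha0 : 0 < a' := by
    rcases Nat.eq_zero_or_pos a' with h0 | h0
    · rw [h0, mul_zero] at ha'; omega
    · exact h0
  have hc0 : 0 < c' := by
    rcases Nat.eq_zero_or_pos c' with h0 | h0
    · rw [h0, mul_zero] at hc'; omega
    · exact h0
  have hcop : Nat.Coprime a' c' := by
    have h1 : Nat.gcd (g * a') (g * c') = g := by rw [← ha', ← hc', ← hg]
    rw [Nat.gcd_mul_left] at h1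
    exact Nat.eq_of_mul_eq_mul_left hg0 (by rw [h1, mul_one])
  have h2 : a' * b = c' * d := by
    apply Nat.eq_of_mul_eq_mul_left hg0
    rw [← mul_assoc, ← ha', ← mul_assoc, ← hc', h]
  obtain ⟨t, ht⟩ : c' ∣ b := by
    have h3 : c' ∣ a' * b := ⟨d, h2⟩
    exact hcop.symm.dvd_of_dvd_mul_left h3
  have ht0 : 0 < t := by
    rcases Nat.eq_zero_or_pos t with h0 | h0
    · rw [h0, mul_zero] at ht; omega
    · exact h0
  refine ⟨g, a', c', t, hg0, ha0, hc0, ht0, ?_, ha', hc', ht, ?_⟩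
  · unfold par
    simp only
    rw [← hg]
    have e1 : a / g = a' := by rw [ha']; exact Nat.mul_div_cancel_left _ hg0
    have e2 : c / g = c' := by rw [hc']; exact Nat.mul_div_cancel_left _ hg0
    rw [e1, e2]
    have e3 : b / c' = t := by rw [ht]; exact Nat.mul_div_cancel_left _ hc0
    rw [e3]
  · apply Nat.eq_of_mul_eq_mul_left hc0
    rw [← h2, ht]
    ring

/-- the weight -/
noncomputable def wt (z : ℝ) (y : ℕ × ℕ × ℕ × ℕ) : ℝ := F (z ^ 2) y.1 * F z y.2.1 * F z y.2.2.1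

/-- a dyadic box -/
def Rg (N j : ℕ) : Finset (ℕ × ℕ × ℕ × ℕ) :=
  Ioc 0 (N / 2 ^ j) ×ˢ Ioc 0 (2 ^ (j + 1)) ×ˢ Ioc 0 (2 ^ (j + 1)) ×ˢ Ioc 0 (N / 2 ^ j)

lemma F_sq (z : ℝ) (n : ℕ) : F (z ^ 2) n = F z n * F z n := by
  unfold F
  rw [← pow_mul, mul_comm 2, pow_mul, sq]

lemma wt_nonneg {z : ℝ} (hz : 0 ≤ z) (y : ℕ × ℕ × ℕ × ℕ) : 0 ≤ wt z y :=
  mul_nonneg (mul_nonneg (F_nonneg (by positivity) _) (F_nonneg hz _)) (F_nonneg hz _)

lemma sum_Rg (z : ℝ) (N j : ℕ) : ∑ y ∈ Rg N j, wt z y =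
    A (z ^ 2) (N / 2 ^ j) * A z (2 ^ (j + 1)) * A z (2 ^ (j + 1)) * ((N / 2 ^ j : ℕ) : ℝ) := by
  unfold Rg wt
  rw [Finset.sum_product]
  simp_rw [Finset.sum_product]
  simp only [Finset.sum_const, Nat.card_Ioc, nsmul_eq_mul]
  unfold A
  simp_rw [Finset.sum_mul, Finset.mul_sum, Finset.sum_mul]
  apply Finset.sum_congr rfl
  intro g _
  apply Finset.sum_congr rfl
  intro a _
  apply Finset.sum_congr rfl
  intro c _
  rw [Nat.sub_zero]
  ring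

lemma biU {ι κ : Type*} [DecidableEq κ] [DecidableEq ι] (s : Finset ι) (t : ι → Finset κ) (w : κ → ℝ)
    (hw : ∀ y, 0 ≤ w y) : ∑ y ∈ s.biUnion t, w y ≤ ∑ j ∈ s, ∑ y ∈ t j, w y := by
  induction s using Finset.induction_on with
  | empty => simp
  | insert a s ha ih =>
    rw [Finset.biUnion_insert, Finset.sum_insert ha]
    have h1 := Finset.sum_union_inter (s₁ := t a) (s₂ := s.biUnion t) (f := w)
    have h2 : 0 ≤ ∑ y ∈ t a ∩ s.biUnion t, w y := Finset.sum_nonneg fun y _ => hw y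
    linarith

lemma energy_le {B : Finset ℕ} {N k : ℕ} {z : ℝ} (hz : 0 < z)
    (hB : B ⊆ Ioc 0 N) (hk : ∀ n ∈ B, cardFactors n = k) :
    (energy B N : ℝ) * z ^ (2 * k) ≤ ∑ j ∈ range (Nat.log 2 N + 1),
      A (z ^ 2) (N / 2 ^ j) * A z (2 ^ (j + 1)) * A z (2 ^ (j + 1)) * ((N / 2 ^ j : ℕ) : ℝ) := by
  classical
  obtain ⟨Q, hQ⟩ : ∃ Q, Q = ((B ×ˢ Ioc 0 N) ×ˢ (B ×ˢ Ioc 0 N)).filter
    (fun q => q.1.1 * q.1.2 = q.2.1 * q.2.2) := ⟨_, rfl⟩
  have hmem : ∀ a b c d : ℕ, ((a, b), (c, d)) ∈ Q →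
      ∃ g a' c' t : ℕ, 0 < g ∧ 0 < a' ∧ 0 < c' ∧ 0 < t ∧ par ((a, b), (c, d)) = (g, a', c', t) ∧
      a = g * a' ∧ c = g * c' ∧ b = c' * t ∧ d = a' * t ∧ a ∈ B ∧ c ∈ B ∧ b ≤ N ∧ d ≤ N := by
    intro a b c d h
    rw [hQ, Finset.mem_filter, Finset.mem_product, Finset.mem_product, Finset.mem_product,
      Finset.mem_Ioc, Finset.mem_Ioc] at h
    obtain ⟨⟨⟨h1, h2, h3⟩, ⟨h4, h5, h6⟩⟩, h7⟩ := h
    simp only at h1 h2 h3 h4 h5 h6 h7
    have ha := (Finset.mem_Ioc.1 (hB h1)).1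
    have hc := (Finset.mem_Ioc.1 (hB h4)).1
    obtain ⟨g, a', c', t, q1, q2, q3, q4, q5, q6, q7, q8, q9⟩ := par_spec ha h2 hc h7
    exact ⟨g, a', c', t, q1, q2, q3, q4, q5, q6, q7, q8, q9, h1, h4, h3, h6⟩
  have hinj : Set.InjOn par (Q : Set ((ℕ × ℕ) × (ℕ × ℕ))) := by
    rintro ⟨⟨a, b⟩, ⟨c, d⟩⟩ h1 ⟨⟨a2, b2⟩, ⟨c2, d2⟩⟩ h2 he
    obtain ⟨g, a', c', t, -, -, -, -, q5, q6, q7, q8, q9, -⟩ := hmem _ _ _ _ h1
    obtain ⟨g2, a2', c2', t2, -, -, -, -, r5, r6, r7, r8, r9, -⟩ := hmem _ _ _ _ h2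
    rw [q5, r5, Prod.mk.injEq, Prod.mk.injEq, Prod.mk.injEq] at he
    obtain ⟨e1, e2, e3, e4⟩ := he
    rw [q6, q7, q8, q9, r6, r7, r8, r9, e1, e2, e3, e4]
  have hwt : ∀ q ∈ Q, wt z (par q) = z ^ (2 * k) := by
    rintro ⟨⟨a, b⟩, ⟨c, d⟩⟩ h1
    obtain ⟨g, a', c', t, q1, q2, q3, -, q5, q6, q7, -, -, q10, q11, -⟩ := hmem _ _ _ _ h1
    rw [q5]
    unfold wt
    simp only
    rw [F_sq]
    have e1 : F z a = z ^ k := by unfold F; rw [hk a q10]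
    have e2 : F z c = z ^ k := by unfold F; rw [hk c q11]
    rw [q6, F_mul q1.ne' q2.ne'] at e1
    rw [q7, F_mul q1.ne' q3.ne'] at e2
    calc F z g * F z g * F z a' * F z c' = (F z g * F z a') * (F z g * F z c') := by ring
      _ = z ^ (2 * k) := by rw [e1, e2, ← pow_add, two_mul]
  have h1 : (energy B N : ℝ) * z ^ (2 * k) = ∑ y ∈ Q.image par, wt z y := by
    rw [Finset.sum_image hinj, Finset.sum_congr rfl hwt, Finset.sum_const, nsmul_eq_mul, hQ]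
    rfl
  rw [h1]
  have h2 : Q.image par ⊆ (range (Nat.log 2 N + 1)).biUnion (Rg N) := by
    intro y hy
    obtain ⟨⟨⟨a, b⟩, ⟨c, d⟩⟩, hq, rfl⟩ := Finset.mem_image.1 hy
    obtain ⟨g, a', c', t, q1, q2, q3, q4, q5, q6, q7, q8, q9, q10, q11, q12, q13⟩ := hmem _ _ _ _ hq
    rw [q5, Finset.mem_biUnion]
    have hm0 : max a' c' ≠ 0 := by
      have := le_max_left a' c'
      omega
    have hj1 : 2 ^ Nat.log 2 (max a' c') ≤ max a' c' := Nat.pow_log_le_self 2 hm0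
    have hj2 : max a' c' < 2 ^ (Nat.log 2 (max a' c') + 1) := Nat.lt_pow_succ_log_self (by norm_num) _
    have ha := (Finset.mem_Ioc.1 (hB q10)).2
    have hc := (Finset.mem_Ioc.1 (hB q11)).2
    have hg : g * max a' c' ≤ N := by
      rcases max_choice a' c' with h | h
      · rw [h, ← q6]; exact ha
      · rw [h, ← q7]; exact hc
    have ht : t * max a' c' ≤ N := by
      rcases max_choice a' c' with h | h
      · rw [h, mul_comm, ← q9]; exact q13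
      · rw [h, mul_comm, ← q8]; exact q12
    have hmN : max a' c' ≤ N := le_trans (Nat.le_mul_of_pos_left _ q1) hg
    refine ⟨Nat.log 2 (max a' c'), ?_, ?_⟩
    · rw [Finset.mem_range]
      have := Nat.log_mono_right (b := 2) hmN
      omega
    · unfold Rg
      rw [Finset.mem_product, Finset.mem_product, Finset.mem_product, Finset.mem_Ioc, Finset.mem_Ioc,
        Finset.mem_Ioc, Finset.mem_Ioc]
      simp only
      refine ⟨⟨q1, ?_⟩, ⟨q2, ?_⟩, ⟨q3, ?_⟩, ⟨q4, ?_⟩⟩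
      · rw [Nat.le_div_iff_mul_le (by positivity)]
        exact le_trans (Nat.mul_le_mul_left _ hj1) hg
      · exact (le_trans (le_max_left _ _) hj2.le)
      · exact (le_trans (le_max_right _ _) hj2.le)
      · rw [Nat.le_div_iff_mul_le (by positivity)]
        exact le_trans (Nat.mul_le_mul_left _ hj1) ht
  calc ∑ y ∈ Q.image par, wt z y ≤ ∑ y ∈ (range (Nat.log 2 N + 1)).biUnion (Rg N), wt z y :=
        Finset.sum_le_sum_of_subset_of_nonneg h2 fun y _ _ => wt_nonneg hz.le y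
    _ ≤ ∑ j ∈ range (Nat.log 2 N + 1), ∑ y ∈ Rg N j, wt z y :=
        biU _ _ _ (fun y => wt_nonneg hz.le y)
    _ = _ := Finset.sum_congr rfl fun j _ => sum_Rg z N j

/-- sums of powers -/
lemma pow_sum {t : ℝ} (ht0 : 0 ≤ t) (ht1 : t < 1) (n : ℕ) :
    ∑ i ∈ range n, ((i : ℝ) + 1) ^ (-t) ≤ (n : ℝ) ^ (1 - t) / (1 - t) := by
  have h1 : 0 < 1 - t := by linarith
  induction n with
  | zero =>
    simp
    rw [Real.zero_rpow h1.ne']
    simp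
  | succ n ih =>
    rw [Finset.sum_range_succ]
    have hn : (0 : ℝ) < (n : ℝ) + 1 := by positivity
    have h2 : ((n : ℝ) + 1) ^ (-t) * (1 - t) + (n : ℝ) ^ (1 - t) ≤ ((n : ℝ) + 1) ^ (1 - t) := by
      have h3 : (1 + (-(1 / ((n : ℝ) + 1)))) ^ (1 - t) ≤ 1 + (1 - t) * (-(1 / ((n : ℝ) + 1))) := by
        apply rpow_one_add_le_one_add_mul_self
        · rw [neg_le_neg_iff, div_le_one hn]
          linarith [Nat.cast_nonneg (α := ℝ) n]
        · exact h1.le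
        · linarith
      have h4 : (n : ℝ) = ((n : ℝ) + 1) * (1 + (-(1 / ((n : ℝ) + 1)))) := by
        field_simp
        ring
      have h5 : (n : ℝ) ^ (1 - t) = ((n : ℝ) + 1) ^ (1 - t) * (1 + (-(1 / ((n : ℝ) + 1)))) ^ (1 - t) := by
        rw [← Real.mul_rpow hn.le]
        · rw [← h4]
        · have : 1 / ((n : ℝ) + 1) ≤ 1 := by
            rw [div_le_one hn]
            linarith [Nat.cast_nonneg (α := ℝ) n]
          linarith
      have h6 : 0 < ((n : ℝ) + 1) ^ (1 - t) := Real.rpow_pos_of_pos hn _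
      have h7 : ((n : ℝ) + 1) ^ (1 - t) = ((n : ℝ) + 1) ^ (-t) * ((n : ℝ) + 1) := by
        rw [← Real.rpow_add_one hn.ne']
        congr 1
        ring
      calc ((n : ℝ) + 1) ^ (-t) * (1 - t) + (n : ℝ) ^ (1 - t) ≤
            ((n : ℝ) + 1) ^ (-t) * (1 - t) + ((n : ℝ) + 1) ^ (1 - t) * (1 + (1 - t) * (-(1 / ((n : ℝ) + 1)))) := by
            rw [h5]
            linarith [mul_le_mul_of_nonneg_left h3 h6.le]
        _ = ((n : ℝ) + 1) ^ (1 - t) := by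
            rw [h7]
            field_simp
            ring
    push_cast
    rw [le_div_iff₀ h1] at ih ⊢
    linarith

/-- discrete convolution -/
lemma conv_bound {s t : ℝ} (hs : 1 < s) (ht0 : 0 ≤ t) (ht1 : t < 1) : ∃ C : ℝ, 0 < C ∧ ∀ J : ℕ,
    ∑ j ∈ range (J + 1), ((j : ℝ) + 1) ^ (-s) * (((J - j : ℕ) : ℝ) + 1) ^ (-t) ≤
      C * ((J : ℝ) + 1) ^ (-t) := by
  have hsum : Summable (fun n : ℕ => ((n : ℝ) + 1) ^ (-s)) := by
    have h1 := (summable_nat_add_iff 1).2 (Real.summable_nat_rpow_inv.2 hs)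
    refine h1.congr fun n => ?_
    push_cast
    rw [Real.rpow_neg (by positivity)]
  have hC0 : 0 ≤ ∑' n : ℕ, ((n : ℝ) + 1) ^ (-s) :=
    tsum_nonneg fun n => Real.rpow_nonneg (by positivity) _
  refine ⟨2 ^ t * (∑' n : ℕ, ((n : ℝ) + 1) ^ (-s)) + 2 ^ s / (1 - t), ?_, fun J => ?_⟩
  · have h1 : 0 < 1 - t := by linarith
    positivity
  have hJ : (0 : ℝ) < (J : ℝ) + 1 := by positivity
  have hterm : ∀ j ∈ range (J + 1), ((j : ℝ) + 1) ^ (-s) * (((J - j : ℕ) : ℝ) + 1) ^ (-t) ≤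
      2 ^ t * ((J : ℝ) + 1) ^ (-t) * ((j : ℝ) + 1) ^ (-s) +
        2 ^ s * ((J : ℝ) + 1) ^ (-s) * (((J - j : ℕ) : ℝ) + 1) ^ (-t) := by
    intro j hj
    have hjJ : j ≤ J := by
      have := Finset.mem_range.1 hj
      omega
    have hcast : ((J - j : ℕ) : ℝ) = (J : ℝ) - j := by rw [Nat.cast_sub hjJ]
    have hj0 : (0 : ℝ) < (j : ℝ) + 1 := by positivity
    have hj1 : (0 : ℝ) < ((J - j : ℕ) : ℝ) + 1 := by positivity
    have g1 : 0 ≤ ((j : ℝ) + 1) ^ (-s) := Real.rpow_nonneg hj0.le _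
    have g2 : 0 ≤ (((J - j : ℕ) : ℝ) + 1) ^ (-t) := Real.rpow_nonneg hj1.le _
    have g3 : 0 ≤ 2 ^ t * ((J : ℝ) + 1) ^ (-t) := by positivity
    have g4 : 0 ≤ 2 ^ s * ((J : ℝ) + 1) ^ (-s) := by positivity
    have hsplit : ∀ u : ℝ, 2 ^ u * ((J : ℝ) + 1) ^ (-u) = (((J : ℝ) + 1) / 2) ^ (-u) := by
      intro u
      rw [Real.div_rpow hJ.le (by norm_num), Real.rpow_neg (by norm_num : (0:ℝ) ≤ 2), div_inv_eq_mul]
      ring
    by_cases h : ((J : ℝ) + 1) / 2 ≤ (j : ℝ) + 1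
    · have h2 : ((j : ℝ) + 1) ^ (-s) ≤ 2 ^ s * ((J : ℝ) + 1) ^ (-s) := by
        rw [hsplit s]
        exact Real.rpow_le_rpow_of_nonpos (by positivity) h (by linarith)
      have h3 := mul_le_mul_of_nonneg_right h2 g2
      have h4 := mul_nonneg g3 g1
      linarith
    · have h1 : ((J : ℝ) + 1) / 2 ≤ ((J - j : ℕ) : ℝ) + 1 := by
        rw [hcast]
        push Not at h
        linarith
      have h2 : (((J - j : ℕ) : ℝ) + 1) ^ (-t) ≤ 2 ^ t * ((J : ℝ) + 1) ^ (-t) := by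
        rw [hsplit t]
        exact Real.rpow_le_rpow_of_nonpos (by positivity) h1 (by linarith)
      have h3 := mul_le_mul_of_nonneg_left h2 g1
      have h4 := mul_nonneg g4 g2
      linarith
  refine (Finset.sum_le_sum hterm).trans ?_
  rw [Finset.sum_add_distrib, ← Finset.mul_sum, ← Finset.mul_sum]
  have h5 : ∑ j ∈ range (J + 1), ((j : ℝ) + 1) ^ (-s) ≤ ∑' n : ℕ, ((n : ℝ) + 1) ^ (-s) :=
    hsum.sum_le_tsum _ fun n _ => Real.rpow_nonneg (by positivity) _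
  have h6 : ∑ j ∈ range (J + 1), (((J - j : ℕ) : ℝ) + 1) ^ (-t) = ∑ i ∈ range (J + 1), ((i : ℝ) + 1) ^ (-t) := by
    rw [← Finset.sum_range_reflect]
    apply Finset.sum_congr rfl
    intro j hj
    have hjJ : j ≤ J := by
      have := Finset.mem_range.1 hj
      omega
    congr 3
    omega
  have h7 := pow_sum ht0 ht1 (J + 1)
  rw [h6]
  have g3 : 0 ≤ 2 ^ t * ((J : ℝ) + 1) ^ (-t) := by positivity
  have g4 : 0 ≤ 2 ^ s * ((J : ℝ) + 1) ^ (-s) := by positivity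
  have h8 := mul_le_mul_of_nonneg_left h5 g3
  have h9 := mul_le_mul_of_nonneg_left h7 g4
  push_cast at h9
  have h10 : ((J : ℝ) + 1) ^ (-s) * ((J : ℝ) + 1) ^ (1 - t) ≤ ((J : ℝ) + 1) ^ (-t) := by
    rw [← Real.rpow_add hJ]
    apply Real.rpow_le_rpow_of_exponent_le
    · linarith [Nat.cast_nonneg (α := ℝ) J]
    · linarith
  have h1t : 0 < 1 - t := by linarith
  have h11 : 2 ^ s * ((J : ℝ) + 1) ^ (-s) * (((J : ℝ) + 1) ^ (1 - t) / (1 - t)) ≤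
      2 ^ s / (1 - t) * ((J : ℝ) + 1) ^ (-t) := by
    calc 2 ^ s * ((J : ℝ) + 1) ^ (-s) * (((J : ℝ) + 1) ^ (1 - t) / (1 - t)) =
          2 ^ s / (1 - t) * (((J : ℝ) + 1) ^ (-s) * ((J : ℝ) + 1) ^ (1 - t)) := by ring
      _ ≤ _ := mul_le_mul_of_nonneg_left h10 (by positivity)
  calc _ ≤ 2 ^ t * ((J : ℝ) + 1) ^ (-t) * (∑' n : ℕ, ((n : ℝ) + 1) ^ (-s)) +
        2 ^ s * ((J : ℝ) + 1) ^ (-s) * (((J : ℝ) + 1) ^ (1 - t) / (1 - t)) := add_le_add h8 h9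
    _ ≤ 2 ^ t * ((J : ℝ) + 1) ^ (-t) * (∑' n : ℕ, ((n : ℝ) + 1) ^ (-s)) +
        2 ^ s / (1 - t) * ((J : ℝ) + 1) ^ (-t) := by linarith
    _ = _ := by ring

/-- the energy of a set of integers with `k` prime factors -/
theorem energy_bound {z : ℝ} (hz : 0 < z) (hz1 : z < 1 / 2) : ∃ C : ℝ, 0 < C ∧
    ∀ (B : Finset ℕ) (N k : ℕ), 2 ≤ N → B ⊆ Ioc 0 N → (∀ n ∈ B, cardFactors n = k) →
      (energy B N : ℝ) * z ^ (2 * k) ≤ C * (N : ℝ) ^ 2 * (Real.log N) ^ (z ^ 2 - 1) := by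
  obtain ⟨C, hC, hA⟩ := A_le
  have hz2 : z ^ 2 < 1 := by nlinarith
  obtain ⟨D, hD, hcv⟩ := conv_bound (s := 2 - 2 * z) (t := 1 - z ^ 2) (by linarith) (by linarith)
    (by nlinarith)
  refine ⟨32 * C ^ 3 * D, by positivity, fun B N k hN hB hk => ?_⟩
  refine (energy_le hz hB hk).trans ?_
  have hN0 : 0 < N := by omega
  have hNr : (2 : ℝ) ≤ N := by exact_mod_cast hN
  have hl2 : 0.6931471803 < Real.log 2 := Real.log_two_gt_d9
  have hl2' : Real.log 2 < 0.6931471808 := Real.log_two_lt_d9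
  have hterm : ∀ j ∈ range (Nat.log 2 N + 1),
      A (z ^ 2) (N / 2 ^ j) * A z (2 ^ (j + 1)) * A z (2 ^ (j + 1)) * ((N / 2 ^ j : ℕ) : ℝ) ≤
      (32 * C ^ 3 * (N : ℝ) ^ 2) * (((j : ℝ) + 1) ^ (-(2 - 2 * z)) *
        (((Nat.log 2 N - j : ℕ) : ℝ) + 1) ^ (-(1 - z ^ 2))) := by
    intro j hj
    have hjJ : j ≤ Nat.log 2 N := by
      have := Finset.mem_range.1 hj
      omega
    have hpj : 2 ^ j ≤ N := le_trans (Nat.pow_le_pow_right (by norm_num) hjJ) (Nat.pow_log_le_self 2 hN0.ne')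
    -- the first factor
    have hM1 : 1 ≤ N / 2 ^ j := (Nat.one_le_div_iff (by positivity)).2 hpj
    have hM2 : 2 ^ (Nat.log 2 N - j) ≤ N / 2 ^ j := by
      rw [Nat.le_div_iff_mul_le (by positivity), ← pow_add, Nat.sub_add_cancel hjJ]
      exact Nat.pow_log_le_self 2 hN0.ne'
    have hMr : ((N / 2 ^ j : ℕ) : ℝ) ≤ (N : ℝ) / 2 ^ j := by
      have := @Nat.cast_div_le ℝ _ _ _ N (2 ^ j)
      push_cast at this
      exact this
    have hMlog : (((Nat.log 2 N - j : ℕ) : ℝ) + 1) / 2 ≤ 1 + Real.log ((N / 2 ^ j : ℕ) : ℝ) := by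
      have h1 : ((Nat.log 2 N - j : ℕ) : ℝ) * Real.log 2 ≤ Real.log ((N / 2 ^ j : ℕ) : ℝ) := by
        rw [← Real.log_pow]
        apply Real.log_le_log (by positivity)
        exact_mod_cast hM2
      have h2 : (0 : ℝ) ≤ ((Nat.log 2 N - j : ℕ) : ℝ) := Nat.cast_nonneg _
      nlinarith
    have f1 : A (z ^ 2) (N / 2 ^ j) ≤ C * ((N : ℝ) / 2 ^ j) *
        (2 * (((Nat.log 2 N - j : ℕ) : ℝ) + 1) ^ (-(1 - z ^ 2))) := by
      refine (hA (z ^ 2) (by positivity) hz2.le _ hM1).trans ?_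
      have h1 : (1 + Real.log ((N / 2 ^ j : ℕ) : ℝ)) ^ (z ^ 2 - 1) ≤
          2 * (((Nat.log 2 N - j : ℕ) : ℝ) + 1) ^ (-(1 - z ^ 2)) := by
        have h2 : (1 + Real.log ((N / 2 ^ j : ℕ) : ℝ)) ^ (z ^ 2 - 1) ≤
            ((((Nat.log 2 N - j : ℕ) : ℝ) + 1) / 2) ^ (z ^ 2 - 1) :=
          Real.rpow_le_rpow_of_nonpos (by positivity) hMlog (by linarith)
        refine h2.trans ?_
        rw [Real.div_rpow (by positivity) (by norm_num), neg_sub, div_eq_mul_inv, mul_comm,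
          ← Real.rpow_neg (by norm_num)]
        apply mul_le_mul_of_nonneg_right _ (Real.rpow_nonneg (by positivity) _)
        calc (2 : ℝ) ^ (-(z ^ 2 - 1)) ≤ 2 ^ (1 : ℝ) :=
              Real.rpow_le_rpow_of_exponent_le (by norm_num) (by nlinarith)
          _ = 2 := Real.rpow_one 2
      apply mul_le_mul _ h1 (Real.rpow_nonneg _ _) (by positivity)
      · exact mul_le_mul_of_nonneg_left hMr hC.le
      · have := Real.log_nonneg (show (1 : ℝ) ≤ ((N / 2 ^ j : ℕ) : ℝ) by exact_mod_cast hM1)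
        linarith
    have f2 : A z (2 ^ (j + 1)) ≤ C * 2 ^ (j + 1) * (2 * ((j : ℝ) + 1) ^ (z - 1)) := by
      refine (hA z hz.le (by linarith) _ Nat.one_le_two_pow).trans ?_
      have h1 : ((j : ℝ) + 1) / 2 ≤ 1 + Real.log ((2 ^ (j + 1) : ℕ) : ℝ) := by
        push_cast
        rw [Real.log_pow]
        push_cast
        nlinarith [Nat.cast_nonneg (α := ℝ) j]
      have h2 : (1 + Real.log ((2 ^ (j + 1) : ℕ) : ℝ)) ^ (z - 1) ≤ 2 * ((j : ℝ) + 1) ^ (z - 1) := by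
        refine (Real.rpow_le_rpow_of_nonpos (by positivity) h1 (by linarith)).trans ?_
        rw [Real.div_rpow (by positivity) (by norm_num), div_eq_mul_inv, mul_comm,
          ← Real.rpow_neg (by norm_num)]
        apply mul_le_mul_of_nonneg_right _ (Real.rpow_nonneg (by positivity) _)
        calc (2 : ℝ) ^ (-(z - 1)) ≤ 2 ^ (1 : ℝ) :=
              Real.rpow_le_rpow_of_exponent_le (by norm_num) (by linarith)
          _ = 2 := Real.rpow_one 2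
      have h3 : ((2 ^ (j + 1) : ℕ) : ℝ) = 2 ^ (j + 1) := by push_cast; ring
      rw [h3] at h2 ⊢
      exact mul_le_mul_of_nonneg_left h2 (by positivity)
    have n1 : 0 ≤ A z (2 ^ (j + 1)) := Finset.sum_nonneg fun n _ => F_nonneg hz.le n
    have n2 : 0 ≤ A (z ^ 2) (N / 2 ^ j) := Finset.sum_nonneg fun n _ => F_nonneg (by positivity) n
    have p1 : 0 ≤ ((j : ℝ) + 1) ^ (z - 1) := Real.rpow_nonneg (by positivity) _
    have p2 : 0 ≤ (((Nat.log 2 N - j : ℕ) : ℝ) + 1) ^ (-(1 - z ^ 2)) := Real.rpow_nonneg (by positivity) _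
    have e1 : ((j : ℝ) + 1) ^ (-(2 - 2 * z)) = ((j : ℝ) + 1) ^ (z - 1) * ((j : ℝ) + 1) ^ (z - 1) := by
      rw [← Real.rpow_add (by positivity)]
      congr 1
      ring
    calc A (z ^ 2) (N / 2 ^ j) * A z (2 ^ (j + 1)) * A z (2 ^ (j + 1)) * ((N / 2 ^ j : ℕ) : ℝ) ≤
          (C * ((N : ℝ) / 2 ^ j) * (2 * (((Nat.log 2 N - j : ℕ) : ℝ) + 1) ^ (-(1 - z ^ 2)))) *
          (C * 2 ^ (j + 1) * (2 * ((j : ℝ) + 1) ^ (z - 1))) *
          (C * 2 ^ (j + 1) * (2 * ((j : ℝ) + 1) ^ (z - 1))) * ((N : ℝ) / 2 ^ j) := by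
          gcongr
      _ = _ := by
          rw [e1]
          field_simp
          ring
  refine (Finset.sum_le_sum hterm).trans ?_
  rw [← Finset.mul_sum]
  have h1 := hcv (Nat.log 2 N)
  have h2 : ((Nat.log 2 N : ℝ) + 1) ^ (-(1 - z ^ 2)) ≤ (Real.log N) ^ (z ^ 2 - 1) := by
    rw [neg_sub]
    apply Real.rpow_le_rpow_of_nonpos (Real.log_pos (by linarith)) _ (by linarith)
    have h3 : N < 2 ^ (Nat.log 2 N + 1) := Nat.lt_pow_succ_log_self (by norm_num) _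
    have h4 : (N : ℝ) ≤ 2 ^ (Nat.log 2 N + 1) := by exact_mod_cast h3.le
    have h5 := Real.log_le_log (by linarith) h4
    rw [Real.log_pow] at h5
    push_cast at h5
    nlinarith [Nat.cast_nonneg (α := ℝ) (Nat.log 2 N)]
  calc _ ≤ (32 * C ^ 3 * (N : ℝ) ^ 2) * (D * ((Nat.log 2 N : ℝ) + 1) ^ (-(1 - z ^ 2))) :=
        mul_le_mul_of_nonneg_left h1 (by positivity)
    _ ≤ (32 * C ^ 3 * (N : ℝ) ^ 2) * (D * (Real.log N) ^ (z ^ 2 - 1)) := by
        apply mul_le_mul_of_nonneg_left _ (by positivity)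
        exact mul_le_mul_of_nonneg_left h2 hD.le
    _ = _ := by ring

end Pool.Agent.X129.ME
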