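import Mathlib
import Pool.Agent.Helper559.Mertens

set_option autoImplicit false

namespace Pool.Agent.X129.ME

open Finset ArithmeticFunction

/-- the integers up to `x` with `k` prime factors -/
noncomputable def W (k : ℕ) (x : ℝ) : Finset ℕ := (Ioc 0 ⌊x⌋₊).filter (fun n => cardFactors n = k)

lemma mem_W {k : ℕ} {x : ℝ} {n : ℕ} (hx : 0 ≤ x) : n ∈ W k x ↔ (0 < n ∧ (n : ℝ) ≤ x) ∧ cardFactors n = k := by
  unfold W
  rw [Finset.mem_filter, Finset.mem_Ioc, Nat.le_floor_iff hx]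

/-- Chebyshev -/
lemma W_one : ∃ x0 : ℝ, 2 ≤ x0 ∧ ∀ x : ℝ, x0 ≤ x → x / (4 * Real.log x) ≤ ((W 1 x).card : ℝ) := by
  have hev : ∀ᶠ x : ℝ in Filter.atTop, Real.log (x + 2) ≤ (1 / 10) * x := by
    have h1 := (Real.isLittleO_log_id_atTop.bound (show (0 : ℝ) < 1 / 20 by norm_num))
    have h2 : ∀ᶠ x : ℝ in Filter.atTop, ‖Real.log (x + 2)‖ ≤ 1 / 20 * ‖id (x + 2)‖ :=
      (Filter.tendsto_atTop_add_const_right Filter.atTop (2 : ℝ) Filter.tendsto_id).eventually h1
    filter_upwards [h2, Filter.eventually_ge_atTop (2 : ℝ)] with x h3 h4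
    have h5 := le_trans (Real.le_norm_self _) h3
    rw [id, Real.norm_of_nonneg (by linarith)] at h5
    linarith
  obtain ⟨x1, hx1⟩ := Filter.eventually_atTop.1 hev
  refine ⟨max x1 10, le_trans (by norm_num) (le_max_right _ _), fun x hx => ?_⟩
  have h1 := hx1 x ((le_max_left _ _).trans hx)
  have h2 : (10 : ℝ) ≤ x := (le_max_right _ _).trans hx
  have hlog : 0 < Real.log x := Real.log_pos (by linarith)
  have h3 := Chebyshev.psi_ge' (x := x) (by linarith)
  have h4 := Chebyshev.psi_le_primeCounting_mul_log' x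
  have h5 : (Nat.primeCounting ⌊x⌋₊ : ℝ) = ((W 1 x).card : ℝ) := by
    congr 1
    rw [Nat.primeCounting, Nat.primeCounting', Nat.count_eq_card_filter_range]
    congr 1
    ext n
    rw [mem_W (by linarith), Finset.mem_filter, Finset.mem_range, cardFactors_eq_one_iff_prime,
      Nat.lt_succ_iff, Nat.le_floor_iff (by linarith)]
    constructor
    · rintro ⟨h6, h7⟩
      exact ⟨⟨h7.pos, h6⟩, h7⟩
    · rintro ⟨⟨_, h6⟩, h7⟩
      exact ⟨h6, h7⟩
  rw [h5] at h4
  rw [div_le_iff₀ (by positivity)]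
  have hl2 : 0.6931471803 < Real.log 2 := Real.log_two_gt_d9
  nlinarith

lemma W_step (k : ℕ) (hk : 1 ≤ k) (x y : ℝ) (hx : 0 ≤ x) (hy : 0 ≤ y) :
    ∑ p ∈ (Icc 1 ⌊y⌋₊).filter Nat.Prime, (W k (x / p)).card ≤ (k + 1) * (W (k + 1) x).card := by
  classical
  rw [← Finset.card_sigma]
  apply Finset.card_le_mul_card_image_of_maps_to (f := fun q : (_ : ℕ) × ℕ => q.1 * q.2)
  · rintro ⟨p, m⟩ h
    rw [Finset.mem_sigma, Finset.mem_filter, Finset.mem_Icc, mem_W (by positivity)] at h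
    obtain ⟨⟨h1, h2⟩, ⟨h3, h4⟩, h5⟩ := h
    simp only at h1 h2 h3 h4 h5 ⊢
    have hp : (0 : ℝ) < p := by exact_mod_cast h2.pos
    rw [mem_W hx]
    refine ⟨⟨Nat.mul_pos h2.pos h3, ?_⟩, ?_⟩
    · push_cast
      rw [le_div_iff₀ hp] at h4
      linarith
    · rw [cardFactors_mul h2.ne_zero h3.ne', cardFactors_apply_prime h2, h5]
      omega
  · intro n hn
    rw [mem_W hx] at hn
    obtain ⟨⟨hn0, _⟩, hn1⟩ := hn
    have h1 : (Finset.filter (fun q : (_ : ℕ) × ℕ => q.1 * q.2 = n)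
        (((Icc 1 ⌊y⌋₊).filter Nat.Prime).sigma fun p => W k (x / p))).card ≤ n.primeFactors.card := by
      apply Finset.card_le_card_of_injOn (fun q => q.1)
      · rintro ⟨p, m⟩ h
        rw [Finset.mem_coe, Finset.mem_filter, Finset.mem_sigma, Finset.mem_filter] at h
        obtain ⟨⟨⟨_, h2⟩, _⟩, h3⟩ := h
        simp only at h2 h3 ⊢
        rw [Finset.mem_coe, Nat.mem_primeFactors]
        exact ⟨h2, ⟨m, h3.symm⟩, hn0.ne'⟩
      · rintro ⟨p, m⟩ h ⟨p', m'⟩ h' he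
        rw [Finset.mem_coe, Finset.mem_filter, Finset.mem_sigma, Finset.mem_filter] at h h'
        obtain ⟨⟨⟨_, h2⟩, _⟩, h3⟩ := h
        obtain ⟨⟨⟨_, h2'⟩, _⟩, h3'⟩ := h'
        simp only at h2 h3 h2' h3' he
        subst he
        have : m = m' := Nat.eq_of_mul_eq_mul_left h2.pos (h3.trans h3'.symm)
        rw [this]
    refine h1.trans ?_
    have h2 : n.primeFactors.card = n.primeFactorsList.dedup.length := by
      rw [Nat.primeFactors, List.card_toFinset]
    rw [h2, ← hn1, cardFactors_apply]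
    exact (List.dedup_sublist _).length_le

/-- many integers with `k` prime factors -/
theorem W_lower : ∃ x0 : ℝ, 2 ≤ x0 ∧ ∀ (y : ℝ), 1 ≤ y → ∀ k : ℕ, ∀ x : ℝ,
    x0 * y ^ k ≤ x → x / (4 * Real.log x) * (Pool.Agent.Helper559.S ⌊y⌋₊ ^ k / ((k + 1).factorial : ℝ)) ≤
      ((W (k + 1) x).card : ℝ) := by
  obtain ⟨x0, hx0, h1⟩ := W_one
  refine ⟨x0, hx0, fun y hy k => ?_⟩
  induction k with
  | zero =>
    intro x hx
    rw [pow_zero, mul_one] at hx
    simpa using h1 x hx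
  | succ k ih =>
    intro x hx
    have hyk : 1 ≤ y ^ (k + 1) := one_le_pow₀ hy
    have hx2 : 2 ≤ x := by nlinarith
    have hx00 : (0 : ℝ) ≤ x := by linarith
    have hlog : 0 < Real.log x := Real.log_pos (by linarith)
    have hstep := W_step (k + 1) (by omega) x y hx00 (by linarith)
    have hS0 : 0 ≤ Pool.Agent.Helper559.S ⌊y⌋₊ := Finset.sum_nonneg fun _ _ => by positivity
    have h2 : ∀ p ∈ (Icc 1 ⌊y⌋₊).filter Nat.Prime,
        x / (4 * Real.log x) * (Pool.Agent.Helper559.S ⌊y⌋₊ ^ k / ((k + 1).factorial : ℝ)) * (1 / p) ≤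
          ((W (k + 1) (x / p)).card : ℝ) := by
      intro p hp
      rw [Finset.mem_filter, Finset.mem_Icc, Nat.le_floor_iff (by linarith)] at hp
      obtain ⟨⟨h3, h4⟩, h5⟩ := hp
      have hp0 : (0 : ℝ) < p := by exact_mod_cast h5.pos
      have hp1 : (1 : ℝ) ≤ p := by exact_mod_cast h3
      have h6 : x0 * y ^ k ≤ x / p := by
        rw [le_div_iff₀ hp0]
        calc x0 * y ^ k * p ≤ x0 * y ^ k * y := mul_le_mul_of_nonneg_left h4 (by positivity)
          _ = x0 * y ^ (k + 1) := by ring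
          _ ≤ x := hx
      refine le_trans ?_ (ih (x / p) h6)
      have h7 : 1 < x / p := by
        have : 1 ≤ y ^ k := one_le_pow₀ hy
        nlinarith
      have h8 : 0 < Real.log (x / p) := Real.log_pos h7
      have h9 : Real.log (x / p) ≤ Real.log x :=
        Real.log_le_log (by linarith) (div_le_self hx00 hp1)
      calc x / (4 * Real.log x) * (Pool.Agent.Helper559.S ⌊y⌋₊ ^ k / ((k + 1).factorial : ℝ)) * (1 / p) =
            (x / p) / (4 * Real.log x) * (Pool.Agent.Helper559.S ⌊y⌋₊ ^ k / ((k + 1).factorial : ℝ)) := by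
            field_simp
        _ ≤ _ := by gcongr
    have h3 := Finset.sum_le_sum h2
    rw [← Finset.mul_sum] at h3
    have h4 : ∑ p ∈ (Icc 1 ⌊y⌋₊).filter Nat.Prime, ((W (k + 1) (x / p)).card : ℝ) ≤
        ((k : ℝ) + 2) * ((W (k + 1 + 1) x).card : ℝ) := by
      have : ((∑ p ∈ (Icc 1 ⌊y⌋₊).filter Nat.Prime, (W (k + 1) (x / p)).card : ℕ) : ℝ) ≤
          (((k + 1 + 1) * (W (k + 1 + 1) x).card : ℕ) : ℝ) := by exact_mod_cast hstep
      push_cast at this
      linarith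
    have h5 : ∑ p ∈ (Icc 1 ⌊y⌋₊).filter Nat.Prime, (1 : ℝ) / p = Pool.Agent.Helper559.S ⌊y⌋₊ := rfl
    rw [h5] at h3
    have h6 := h3.trans h4
    have hk2 : (0 : ℝ) < (k : ℝ) + 2 := by positivity
    rw [mul_comm ((k : ℝ) + 2), ← div_le_iff₀ hk2] at h6
    refine le_trans (le_of_eq ?_) h6
    have h7 : (((k + 1 + 1).factorial : ℕ) : ℝ) = ((k : ℝ) + 2) * ((k + 1).factorial : ℝ) := by
      rw [Nat.factorial_succ]
      push_cast
      ring
    rw [h7, pow_succ]
    have h8 : (((k + 1).factorial : ℕ) : ℝ) ≠ 0 := by positivity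
    field_simp

lemma fact_le (k : ℕ) : ((k + 1).factorial : ℝ) ≤ ((k : ℝ) + 1) ^ (k + 2) * Real.exp (-(k : ℝ)) := by
  induction k with
  | zero => simp
  | succ k ih =>
    rw [Nat.factorial_succ]
    push_cast
    have hk : (0 : ℝ) < (k : ℝ) + 1 := by positivity
    have hk2 : (0 : ℝ) < (k : ℝ) + 2 := by positivity
    -- e ≤ (1 + 1/(k+1))^(k+2)
    have h1 : Real.exp 1 * ((k : ℝ) + 1) ^ (k + 2) ≤ ((k : ℝ) + 2) ^ (k + 2) := by
      have h2 : Real.exp (1 / ((k : ℝ) + 2)) * ((k : ℝ) + 1) ≤ (k : ℝ) + 2 := by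
        have h3 := Real.add_one_le_exp (-(1 / ((k : ℝ) + 2)))
        have h4 : Real.exp (1 / ((k : ℝ) + 2)) * Real.exp (-(1 / ((k : ℝ) + 2))) = 1 := by
          rw [← Real.exp_add]
          simp
        have h5 : -(1 / ((k : ℝ) + 2)) + 1 = ((k : ℝ) + 1) / (k + 2) := by
          field_simp
          ring
        rw [h5] at h3
        have h6 := mul_le_mul_of_nonneg_left h3 (Real.exp_pos (1 / ((k : ℝ) + 2))).le
        rw [h4] at h6
        have h7 : Real.exp (1 / ((k : ℝ) + 2)) * (((k : ℝ) + 1) / (k + 2)) =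
          (Real.exp (1 / ((k : ℝ) + 2)) * ((k : ℝ) + 1)) / (k + 2) := by ring
        rw [h7, div_le_one hk2] at h6
        exact h6
      have h3 := pow_le_pow_left₀ (by positivity) h2 (k + 2)
      rw [mul_pow, ← Real.exp_nat_mul] at h3
      refine le_trans (le_of_eq ?_) h3
      congr 2
      push_cast
      field_simp
    calc ((k : ℝ) + 1 + 1) * ((k + 1).factorial : ℝ) ≤
          ((k : ℝ) + 1 + 1) * (((k : ℝ) + 1) ^ (k + 2) * Real.exp (-(k : ℝ))) :=
          mul_le_mul_of_nonneg_left ih (by positivity)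
      _ = ((k : ℝ) + 2) * (Real.exp 1 * ((k : ℝ) + 1) ^ (k + 2)) * Real.exp (-((k : ℝ) + 1)) := by
          rw [show -(k : ℝ) = 1 + -((k : ℝ) + 1) by ring, Real.exp_add]
          ring
      _ ≤ ((k : ℝ) + 2) * ((k : ℝ) + 2) ^ (k + 2) * Real.exp (-((k : ℝ) + 1)) := by gcongr
      _ = _ := by
          rw [show (k : ℝ) + 1 + 1 = k + 2 by ring]
          ring

end Pool.Agent.X129.ME
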