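import Mathlib
import Pool.Agent.X129.ME.Low
import Pool.Agent.X129.ME.En

set_option autoImplicit false
set_option maxHeartbeats 2000000

namespace Pool.Agent.X129.ME

open Finset ArithmeticFunction Filter

lemma ev_log (c C : ℝ) (hc : 0 < c) : ∀ᶠ L : ℝ in atTop, Real.log L + C ≤ c * L := by
  have h1 := (Real.isLittleO_log_id_atTop.bound (show (0 : ℝ) < c / 2 by positivity))
  filter_upwards [h1, eventually_ge_atTop (2 * C / c), eventually_gt_atTop (0 : ℝ)] with L h2 h3 h4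
  have h5 := le_trans (Real.le_norm_self _) h2
  rw [id, Real.norm_of_nonneg h4.le] at h5
  rw [div_le_iff₀ hc] at h3
  linarith

/-- the exponent -/
noncomputable def Qx (κ : ℝ) : ℝ := κ * Real.log κ - κ + 1

lemma lower_aux {κ δ : ℝ} (hκ : 0 < κ) (hκ1 : κ < 1) (hδ : 0 < δ) (hδ1 : δ < 1) :
    ∀ᶠ N : ℕ in atTop, (N : ℝ) * (Real.log N) ^ (-(Qx κ + δ)) ≤
      ((W ⌊κ * Real.log (Real.log N)⌋₊ N).card : ℝ) := by
  obtain ⟨CM, hCM, hm⟩ := Pool.Agent.Helper559.mertens
  obtain ⟨x0, hx0, hW⟩ := W_lower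
  have htend : Tendsto (fun N : ℕ => Real.log (Real.log N)) atTop atTop :=
    Real.tendsto_log_atTop.comp (Real.tendsto_log_atTop.comp tendsto_natCast_atTop_atTop)
  have hexpδ : Real.exp (-δ) < 1 := by
    rw [← Real.exp_zero]
    exact Real.exp_lt_exp.2 (by linarith)
  have c1 := ev_log 1 (Real.log 4) one_pos
  have c2 := ev_log (1 - Real.exp (-δ)) (Real.log 4 + CM) (by linarith)
  have c3 := ev_log (δ * (1 - κ) / 2) 3 (by have : 0 < 1 - κ := by linarith
                                            positivity)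
  have c4 : ∀ᶠ L : ℝ in atTop, x0 ≤ Real.exp (Real.exp L / 2) := by
    have : Tendsto (fun L : ℝ => Real.exp (Real.exp L / 2)) atTop atTop :=
      Real.tendsto_exp_atTop.comp (Real.tendsto_exp_atTop.atTop_div_const (by norm_num))
    exact this.eventually_ge_atTop x0
  have c5 := eventually_ge_atTop (1 / κ)
  filter_upwards [htend.eventually c1, htend.eventually c2, htend.eventually c3, htend.eventually c4,
    htend.eventually c5, eventually_ge_atTop 1] with N d1 d2 d3 d4 d5 hN1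
  obtain ⟨L, hL⟩ : ∃ L, L = Real.log (Real.log N) := ⟨_, rfl⟩
  rw [← hL] at d1 d2 d3 d4 d5 ⊢
  have hL1 : 1 < L := by
    refine lt_of_lt_of_le ?_ d5
    rw [lt_div_iff₀ hκ]
    linarith
  have hL0 : 0 < L := by linarith
  have hNr : (1 : ℝ) ≤ N := by exact_mod_cast hN1
  have hlogN0 : 0 < Real.log N := by
    rcases (Real.log_nonneg hNr).lt_or_eq with h | h
    · exact h
    · rw [← h, Real.log_zero] at hL
      linarith
  have hlogN : Real.log N = Real.exp L := by rw [hL, Real.exp_log hlogN0]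
  have hNexp : (N : ℝ) = Real.exp (Real.exp L) := by rw [← hlogN, Real.exp_log (by linarith)]
  have hκL : 1 ≤ κ * L := by
    rw [div_le_iff₀ hκ] at d5
    linarith
  have hk1 : 1 ≤ ⌊κ * L⌋₊ := by
    rw [Nat.one_le_floor_iff]
    exact hκL
  obtain ⟨k, hk⟩ : ∃ k, ⌊κ * L⌋₊ = k + 1 := ⟨⌊κ * L⌋₊ - 1, by omega⟩
  have hkle : ((k : ℝ) + 1) ≤ κ * L := by
    have := Nat.floor_le (show 0 ≤ κ * L by linarith)
    rw [hk] at this
    push_cast at this
    exact this
  have hklt : κ * L < (k : ℝ) + 2 := by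
    have := Nat.lt_floor_add_one (κ * L)
    rw [hk] at this
    push_cast at this
    linarith
  have hkL : (k : ℝ) + 1 ≤ L := by nlinarith
  rw [hk]
  have hkpos : (0 : ℝ) < (k : ℝ) + 1 := by positivity
  obtain ⟨t, ht⟩ : ∃ t, t = Real.exp L / (2 * ((k : ℝ) + 1)) := ⟨_, rfl⟩
  have hlog4 : Real.log 4 + Real.log L ≤ L := by linarith
  have h4L : 4 * L ≤ Real.exp L := by
    have h1 : 4 * L = Real.exp (Real.log 4 + Real.log L) := by
      rw [Real.exp_add, Real.exp_log (by norm_num), Real.exp_log hL0]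
    rw [h1]
    exact Real.exp_le_exp.2 hlog4
  have ht2 : 2 ≤ t := by
    rw [ht, le_div_iff₀ (by positivity)]
    nlinarith
  have htL : Real.exp L / (4 * L) ≤ t / 2 := by
    rw [ht, div_div, div_le_div_iff_of_pos_left (Real.exp_pos _) (by positivity) (by positivity)]
    linarith
  -- the floor
  have hs : 1 + t / 2 + (t / 2) ^ 2 / 2 ≤ Real.exp (t / 2) := Real.quadratic_le_exp_of_nonneg (by linarith)
  have hs2 : (5 : ℝ) / 2 ≤ Real.exp (t / 2) := by nlinarith
  have hsq : Real.exp t = Real.exp (t / 2) * Real.exp (t / 2) := by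
    rw [← Real.exp_add]
    congr 1
    ring
  have hy1 : 1 ≤ Real.exp t := Real.one_le_exp (by linarith)
  have hfl : Real.exp (t / 2) ≤ (⌊Real.exp t⌋₊ : ℝ) := by
    have h1 := Nat.lt_floor_add_one (Real.exp t)
    nlinarith
  have hfl2 : 2 ≤ ⌊Real.exp t⌋₊ := by
    have : (2 : ℝ) ≤ (⌊Real.exp t⌋₊ : ℝ) := by linarith
    exact_mod_cast this
  have hlogfl : t / 2 ≤ Real.log (⌊Real.exp t⌋₊ : ℝ) := by
    have := Real.log_le_log (Real.exp_pos _) hfl
    rwa [Real.log_exp] at this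
  have hllfl : L - Real.log 4 - Real.log L ≤ Real.log (Real.log (⌊Real.exp t⌋₊ : ℝ)) := by
    have h1 : Real.exp L / (4 * L) ≤ Real.log (⌊Real.exp t⌋₊ : ℝ) := htL.trans hlogfl
    have h2 := Real.log_le_log (by positivity) h1
    rw [Real.log_div (Real.exp_pos _).ne' (by positivity), Real.log_exp,
      Real.log_mul (by norm_num) hL0.ne'] at h2
    linarith
  have hS : Real.exp (-δ) * L ≤ Pool.Agent.Helper559.S ⌊Real.exp t⌋₊ := by
    have h1 := (abs_le.1 (hm _ hfl2)).1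
    linarith
  have hx : x0 * (Real.exp t) ^ k ≤ (N : ℝ) := by
    have h1 : (Real.exp t) ^ k ≤ Real.exp (Real.exp L / 2) := by
      rw [← Real.exp_nat_mul]
      apply Real.exp_le_exp.2
      rw [ht]
      have : (k : ℝ) * (Real.exp L / (2 * ((k : ℝ) + 1))) = (k / ((k : ℝ) + 1)) * (Real.exp L / 2) := by
        field_simp
      rw [this]
      have h2 : (k : ℝ) / ((k : ℝ) + 1) ≤ 1 := by
        rw [div_le_one hkpos]
        linarith
      have h3 : 0 < Real.exp L / 2 := by positivity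
      nlinarith
    calc x0 * (Real.exp t) ^ k ≤ Real.exp (Real.exp L / 2) * Real.exp (Real.exp L / 2) := by
          gcongr
      _ = N := by
          rw [hNexp, ← Real.exp_add]
          congr 1
          ring
  have hmain := hW (Real.exp t) hy1 k N hx
  refine le_trans ?_ hmain
  have hfact := fact_le k
  have hSk : (Real.exp (-δ) * L) ^ k ≤ Pool.Agent.Helper559.S ⌊Real.exp t⌋₊ ^ k :=
    pow_le_pow_left₀ (by positivity) hS k
  have hstep : (N : ℝ) / (4 * Real.log N) * ((Real.exp (-δ) * L) ^ k /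
      (((k : ℝ) + 1) ^ (k + 2) * Real.exp (-(k : ℝ)))) ≤
      (N : ℝ) / (4 * Real.log N) * (Pool.Agent.Helper559.S ⌊Real.exp t⌋₊ ^ k / ((k + 1).factorial : ℝ)) := by
    apply mul_le_mul_of_nonneg_left _ (by positivity)
    apply div_le_div₀ (le_trans (by positivity) hSk) hSk (by positivity) hfact
  refine le_trans ?_ hstep
  rw [hlogN]
  -- everything as exponentials
  have e1 : (Real.exp L) ^ (-(Qx κ + δ)) = Real.exp (-(Qx κ + δ) * L) := by
    rw [← Real.exp_mul]
    congr 1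
    ring
  have e2 : (Real.exp (-δ) * L) ^ k = Real.exp (k * (Real.log L - δ)) := by
    have : Real.exp (-δ) * L = Real.exp (Real.log L - δ) := by
      rw [sub_eq_add_neg, Real.exp_add, Real.exp_log hL0]
      ring
    rw [this, ← Real.exp_nat_mul]
  have e3 : ((k : ℝ) + 1) ^ (k + 2) = Real.exp (((k : ℝ) + 2) * Real.log ((k : ℝ) + 1)) := by
    rw [show ((k : ℝ) + 2) * Real.log ((k : ℝ) + 1) = ((k + 2 : ℕ) : ℝ) * Real.log ((k : ℝ) + 1) by push_cast; ring,
      Real.exp_nat_mul, Real.exp_log hkpos]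
  have e4 : (4 : ℝ) = Real.exp (Real.log 4) := by rw [Real.exp_log (by norm_num)]
  rw [e1, e2, e3]
  have e5 : (N : ℝ) / (4 * Real.exp L) * (Real.exp (k * (Real.log L - δ)) /
      (Real.exp (((k : ℝ) + 2) * Real.log ((k : ℝ) + 1)) * Real.exp (-(k : ℝ)))) =
      N * Real.exp (-(Real.log 4) - L + k * (Real.log L - δ) - ((k : ℝ) + 2) * Real.log ((k : ℝ) + 1) + k) := by
    rw [Real.exp_add, Real.exp_sub, Real.exp_add, Real.exp_sub, Real.exp_neg (Real.log 4), ← e4, Real.exp_neg (k : ℝ)]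
    field_simp
  rw [e5]
  apply mul_le_mul_of_nonneg_left _ (by linarith)
  apply Real.exp_le_exp.2
  have hlogk : Real.log ((k : ℝ) + 1) ≤ Real.log κ + Real.log L := by
    rw [← Real.log_mul hκ.ne' hL0.ne']
    exact Real.log_le_log hkpos hkle
  have hlogκ : Real.log κ < 0 := Real.log_neg hκ hκ1
  have hlogL : 0 < Real.log L := Real.log_pos hL1
  have h44 : Real.log 4 ≤ 2 := by
    have h1 : Real.log 4 = 2 * Real.log 2 := by
      rw [show (4 : ℝ) = 2 ^ 2 by norm_num, Real.log_pow]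
      push_cast
      ring
    have := Real.log_two_lt_d9
    linarith
  have g1 : ((k : ℝ) + 2) * Real.log ((k : ℝ) + 1) ≤ ((k : ℝ) + 2) * (Real.log κ + Real.log L) :=
    mul_le_mul_of_nonneg_left hlogk (by positivity)
  have g2 : ((k : ℝ) + 2) * Real.log κ ≤ κ * L * Real.log κ :=
    mul_le_mul_of_nonpos_right hklt.le hlogκ.le
  have g3 : (κ * L - 2) * (1 - δ) ≤ k * (1 - δ) := by
    apply mul_le_mul_of_nonneg_right _ (by linarith)
    linarith
  unfold Qx
  linarith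

/-- the lower bound for all exponents -/
lemma lower {κ α : ℝ} (hκ : 0 < κ) (hκ1 : κ < 1) (hα : Qx κ < α) :
    ∀ᶠ N : ℕ in atTop, (N : ℝ) * (Real.log N) ^ (-α) ≤
      ((W ⌊κ * Real.log (Real.log N)⌋₊ N).card : ℝ) := by
  have h1 : 0 < min (α - Qx κ) (1 / 2) := lt_min (by linarith) (by norm_num)
  have h2 := lower_aux hκ hκ1 h1 (lt_of_le_of_lt (min_le_right _ _) (by norm_num))
  filter_upwards [h2, eventually_ge_atTop 3] with N h3 hN
  refine le_trans ?_ h3
  apply mul_le_mul_of_nonneg_left _ (Nat.cast_nonneg _)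
  apply Real.rpow_le_rpow_of_exponent_le
  · have h4 : (3 : ℝ) ≤ N := by exact_mod_cast hN
    have h5 := Real.log_le_log (by norm_num) h4
    have h6 : 1 ≤ Real.log 3 := by
      rw [Real.le_log_iff_exp_le (by norm_num)]
      have := Real.exp_one_lt_d9
      linarith
    linarith
  · have := min_le_left (α - Qx κ) (1 / 2)
    linarith

/-- **Main theorem.** -/
theorem main {κ α : ℝ} (hκ : 0 < κ) (hκ1 : κ < 1 / 4) (hα : Qx κ < α) :
    ∃ B : ℕ → Finset ℕ, (∀ N, B N ⊆ Ioc 0 N) ∧ ∃ D : ℝ, 0 < D ∧ ∀ᶠ N : ℕ in atTop,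
      (N : ℝ) * (Real.log N) ^ (-α) ≤ ((B N).card : ℝ) ∧
      ((B N).card : ℝ) ≤ 2 * ((N : ℝ) * (Real.log N) ^ (-α)) ∧
      (energy (B N) N : ℝ) ≤ D * (N * (B N).card * (Real.log N) ^ (α - Qx κ)) := by
  classical
  have hlow := lower hκ (by linarith) hα
  obtain ⟨z, hz⟩ : ∃ z, z = Real.sqrt κ := ⟨_, rfl⟩
  have hz0 : 0 < z := hz ▸ Real.sqrt_pos.2 hκ
  have hz2 : z ^ 2 = κ := by rw [hz]; exact Real.sq_sqrt hκ.le
  have hz1 : z < 1 / 2 := by nlinarith
  obtain ⟨D, hD, hE⟩ := energy_bound hz0 hz1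
  have hex : ∀ N : ℕ, ∃ T : Finset ℕ, T ⊆ W ⌊κ * Real.log (Real.log N)⌋₊ (N : ℝ) ∧
      (⌈(N : ℝ) * (Real.log N) ^ (-α)⌉₊ ≤ (W ⌊κ * Real.log (Real.log N)⌋₊ (N : ℝ)).card →
        T.card = ⌈(N : ℝ) * (Real.log N) ^ (-α)⌉₊) := by
    intro N
    by_cases h : ⌈(N : ℝ) * (Real.log N) ^ (-α)⌉₊ ≤ (W ⌊κ * Real.log (Real.log N)⌋₊ (N : ℝ)).card
    · obtain ⟨T, hT1, hT2⟩ := Finset.exists_subset_card_eq h
      exact ⟨T, hT1, fun _ => hT2⟩
    · exact ⟨∅, Finset.empty_subset _, fun h' => absurd h' h⟩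
  choose B hB1 hB2 using hex
  have hsub : ∀ N, B N ⊆ Ioc 0 N := by
    intro N n hn
    have h1 := (mem_W (Nat.cast_nonneg N)).1 (hB1 N hn)
    rw [Finset.mem_Ioc]
    exact ⟨h1.1.1, by exact_mod_cast h1.1.2⟩
  refine ⟨B, hsub, D, hD, ?_⟩
  have htend : Tendsto (fun N : ℕ => Real.log (Real.log N)) atTop atTop :=
    Real.tendsto_log_atTop.comp (Real.tendsto_log_atTop.comp tendsto_natCast_atTop_atTop)
  have hbig : ∀ᶠ N : ℕ in atTop, 1 ≤ (N : ℝ) * (Real.log N) ^ (-α) := by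
    have h1 := (isLittleO_log_rpow_rpow_atTop α one_pos).bound one_pos
    have h2 := tendsto_natCast_atTop_atTop (R := ℝ).eventually h1
    filter_upwards [h2, eventually_ge_atTop 3] with N h3 hN
    have h4 : (3 : ℝ) ≤ N := by exact_mod_cast hN
    have h5 : 0 < Real.log N := Real.log_pos (by linarith)
    rw [Real.rpow_one, one_mul, Real.norm_of_nonneg (Real.rpow_nonneg h5.le _),
      Real.norm_of_nonneg (by linarith)] at h3
    rw [Real.rpow_neg h5.le, ← div_eq_mul_inv, le_div_iff₀ (Real.rpow_pos_of_pos h5 _), one_mul]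
    exact h3
  filter_upwards [hlow, hbig, eventually_ge_atTop 3, htend.eventually_ge_atTop 0] with N h1 h2 hN hL0
  have h4 : (3 : ℝ) ≤ N := by exact_mod_cast hN
  have h5 : 0 < Real.log N := Real.log_pos (by linarith)
  have hc : (B N).card = ⌈(N : ℝ) * (Real.log N) ^ (-α)⌉₊ := hB2 N (Nat.ceil_le.2 h1)
  have hlo : (N : ℝ) * (Real.log N) ^ (-α) ≤ ((B N).card : ℝ) := by
    rw [hc]
    exact Nat.le_ceil _
  refine ⟨hlo, ?_, ?_⟩
  · rw [hc]
    have := Nat.ceil_lt_add_one (show 0 ≤ (N : ℝ) * (Real.log N) ^ (-α) by linarith)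
    linarith
  · have hk : ∀ n ∈ B N, cardFactors n = ⌊κ * Real.log (Real.log N)⌋₊ := fun n hn =>
      ((mem_W (Nat.cast_nonneg N)).1 (hB1 N hn)).2
    have h6 := hE (B N) N _ (by omega) (hsub N) hk
    obtain ⟨L, hL⟩ : ∃ L, L = Real.log (Real.log N) := ⟨_, rfl⟩
    rw [← hL] at h6 hL0
    have hexpL : Real.log N = Real.exp L := by rw [hL, Real.exp_log h5]
    have h7 : z ^ (2 * ⌊κ * L⌋₊) = Real.exp (⌊κ * L⌋₊ * Real.log κ) := by
      rw [pow_mul, hz2, Real.exp_nat_mul, Real.exp_log hκ]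
    have h8 : Real.exp (κ * L * Real.log κ) ≤ z ^ (2 * ⌊κ * L⌋₊) := by
      rw [h7]
      apply Real.exp_le_exp.2
      have h9 := Nat.floor_le (show 0 ≤ κ * L by positivity)
      have h10 : Real.log κ < 0 := Real.log_neg hκ (by linarith)
      nlinarith
    have h9 : (energy (B N) N : ℝ) * Real.exp (κ * L * Real.log κ) ≤
        D * (N : ℝ) ^ 2 * (Real.log N) ^ (z ^ 2 - 1) :=
      (mul_le_mul_of_nonneg_left h8 (Nat.cast_nonneg _)).trans h6
    have h10 : (energy (B N) N : ℝ) ≤ D * (N : ℝ) ^ 2 * Real.exp (-(Qx κ) * L) := by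
      have h11 : (Real.log N) ^ (z ^ 2 - 1) = Real.exp (-(Qx κ) * L) * Real.exp (κ * L * Real.log κ) := by
        rw [hexpL, ← Real.exp_mul, ← Real.exp_add, hz2]
        congr 1
        unfold Qx
        ring
      rw [h11, ← mul_assoc] at h9
      exact le_of_mul_le_mul_right h9 (Real.exp_pos _)
    have h12 : (N : ℝ) * Real.exp (-(Qx κ) * L) = ((N : ℝ) * (Real.log N) ^ (-α)) * (Real.log N) ^ (α - Qx κ) := by
      rw [mul_assoc, ← Real.rpow_add h5, hexpL, ← Real.exp_mul]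
      congr 2
      ring
    calc (energy (B N) N : ℝ) ≤ D * (N : ℝ) ^ 2 * Real.exp (-(Qx κ) * L) := h10
      _ = D * (N * ((N : ℝ) * Real.exp (-(Qx κ) * L))) := by ring
      _ = D * (N * (((N : ℝ) * (Real.log N) ^ (-α)) * (Real.log N) ^ (α - Qx κ))) := by rw [h12]
      _ ≤ D * (N * (((B N).card : ℝ) * (Real.log N) ^ (α - Qx κ))) := by
          have : 0 ≤ (Real.log N) ^ (α - Qx κ) := Real.rpow_nonneg h5.le _
          gcongr
      _ = _ := by ring

end Pool.Agent.X129.ME
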